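import Mathlib

set_option autoImplicit false

/-!
A finite connected graph with minimum degree `2` whose bnr-independence number is larger than its
upper broadcast domination number.  The graph has 12 vertices: it is a graph on the vertices
`0, ..., 8` with three vertices of degree one, in which each vertex of degree one has been
replaced by a pair of adjacent twins.
-/

namespace Pool.Agent.Results.MP_99edab_co.TwinCounterexample

section Defs

variable {V : Type} [Fintype V] [DecidableEq V] (G : SimpleGraph V)

/-- The eccentricity of `v`: the largest distance from `v` to a vertex of its component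
(`G.dist v u = 0` when `u` is not reachable from `v`). -/
noncomputable def ecc (v : V) : ℕ := Finset.univ.sup (fun u => G.dist v u)

/-- Broadcasts: the value at each vertex is at most its eccentricity. -/
def IsBroadcast (f : V → ℕ) : Prop := ∀ v, f v ≤ ecc G v

/-- The weight `σ(f)`. -/
def weight (f : V → ℕ) : ℕ := ∑ v, f v

/-- `N_f(v)`: the vertices at distance at most `f v` from `v`. -/
def nbhd (f : V → ℕ) (v : V) : Set V := {u | G.Reachable u v ∧ G.dist u v ≤ f v}

/-- `B_f(v)`: the vertices at distance exactly `f v` from `v`. -/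
def bdry (f : V → ℕ) (v : V) : Set V := {u | G.Reachable u v ∧ G.dist u v = f v}

/-- `u` hears `f`: some `v` with `f v > 0` has `d(u, v) ≤ f v`. -/
def Hears (f : V → ℕ) (u : V) : Prop := ∃ v, 0 < f v ∧ u ∈ nbhd G f v

/-- `f` is dominating: every vertex hears `f`. -/
def Dominating (f : V → ℕ) : Prop := ∀ u, Hears G f u

/-- `f` is a minimal dominating broadcast. -/
def MinimalDominating (f : V → ℕ) : Prop :=
  IsBroadcast G f ∧ Dominating G f ∧
    ∀ g : V → ℕ, IsBroadcast G g → (∀ v, g v ≤ f v) → Dominating G g → g = f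

/-- `Γ_b(G)`: the maximum weight of a minimal dominating broadcast. -/
noncomputable def upperBroadcastDomination : ℕ :=
  sSup {w | ∃ f : V → ℕ, MinimalDominating G f ∧ weight f = w}

/-- `f` is bn-independent. -/
def BnIndependent (f : V → ℕ) : Prop :=
  ∀ u v, 0 < f u → 0 < f v → u ≠ v → nbhd G f u ∩ nbhd G f v ⊆ bdry G f u ∩ bdry G f v

/-- The private boundary `PB_f(v)`: the vertices of `N_f(v)` that do not hear the function obtained
from `f` by replacing the value at `v` by `f v - 1`. -/
def privateBdry (f : V → ℕ) (v : V) : Set V :=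
  {u | u ∈ nbhd G f v ∧ ¬ Hears G (Function.update f v (f v - 1)) u}

/-- `f` is irredundant: every vertex with positive value has a nonempty private boundary. -/
def Irredundant (f : V → ℕ) : Prop := ∀ v, 0 < f v → (privateBdry G f v).Nonempty

/-- `f` is a bnr-independent broadcast. -/
def BnrIndependent (f : V → ℕ) : Prop := IsBroadcast G f ∧ BnIndependent G f ∧ Irredundant G f

/-- `α_bnr(G)`: the maximum weight of a bnr-independent broadcast. -/
noncomputable def bnrIndependenceNumber : ℕ :=
  sSup {w | ∃ f : V → ℕ, BnrIndependent G f ∧ weight f = w}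

end Defs

section General

variable {V : Type} [Fintype V] [DecidableEq V] (G : SimpleGraph V)

/-- A minimal dominating broadcast is irredundant. -/
theorem MinimalDominating.irredundant {f : V → ℕ} (h : MinimalDominating G f) :
    Irredundant G f := by
  intro v hv
  by_contra hne
  rw [Set.not_nonempty_iff_eq_empty] at hne
  have hdom : Dominating G (Function.update f v (f v - 1)) := by
    intro u
    by_contra hu
    obtain ⟨w, hw, huw⟩ := h.2.1 u
    by_cases hwv : w = v
    · subst hwv
      have : u ∈ privateBdry G f w := ⟨huw, hu⟩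
      rw [hne] at this
      exact this
    · apply hu
      refine ⟨w, ?_, ?_⟩
      · rwa [Function.update_of_ne hwv]
      · simpa [nbhd, Function.update_of_ne hwv] using huw
  have hle : ∀ w, Function.update f v (f v - 1) w ≤ f w := by
    intro w
    by_cases hwv : w = v
    · subst hwv; simp
    · rw [Function.update_of_ne hwv]
  have := h.2.2 _ (fun w => (hle w).trans (h.1 w)) hle hdom
  have h2 := congrFun this v
  simp at h2
  omega

omit [DecidableEq V] in
theorem weight_le_of_isBroadcast {f : V → ℕ} (h : IsBroadcast G f) :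
    weight f ≤ ∑ v, ecc G v := Finset.sum_le_sum (fun v _ => h v)

theorem le_bnrIndependenceNumber {f : V → ℕ} (h : BnrIndependent G f) :
    weight f ≤ bnrIndependenceNumber G := by
  apply le_csSup
  · refine ⟨∑ v, ecc G v, ?_⟩
    rintro w ⟨g, hg, rfl⟩
    exact weight_le_of_isBroadcast G hg.1
  · exact ⟨f, h, rfl⟩

omit [DecidableEq V] in
theorem upperBroadcastDomination_le {k : ℕ}
    (h : ∀ f : V → ℕ, MinimalDominating G f → weight f ≤ k) :
    upperBroadcastDomination G ≤ k := by
  unfold upperBroadcastDomination
  by_cases hne : {w | ∃ f : V → ℕ, MinimalDominating G f ∧ weight f = w}.Nonempty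
  · apply csSup_le hne
    rintro w ⟨f, hf, rfl⟩
    exact h f hf
  · rw [Set.not_nonempty_iff_eq_empty] at hne
    rw [hne]; simp

omit [Fintype V] in
/-- A function satisfying the obvious recursion is the distance function. -/
theorem dist_eq_of_rec (D : V → V → ℕ) (h0 : ∀ u, D u u = 0)
    (hstep : ∀ u v, u ≠ v → ∃ w, G.Adj u w ∧ D u v = D w v + 1)
    (hlip : ∀ u w v, G.Adj u w → D u v ≤ D w v + 1) (u v : V) :
    G.Reachable u v ∧ G.dist u v = D u v := by
  have hlow : ∀ (a b : V) (p : G.Walk a b), D a b ≤ p.length := by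
    intro a b p
    induction p with
    | nil => simp [h0]
    | cons hadj q ih =>
      rw [SimpleGraph.Walk.length_cons]
      exact (hlip _ _ _ hadj).trans (by omega)
  have hup : ∀ (k : ℕ) (a b : V), D a b = k → ∃ p : G.Walk a b, p.length ≤ k := by
    intro k
    induction k with
    | zero =>
      intro a b hab
      by_cases hne : a = b
      · subst hne; exact ⟨SimpleGraph.Walk.nil, by simp⟩
      · obtain ⟨w, _, hw⟩ := hstep a b hne
        omega
    | succ k ih =>
      intro a b hab
      by_cases hne : a = b
      · subst hne; exact ⟨SimpleGraph.Walk.nil, by simp⟩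
      · obtain ⟨w, hadj, hw⟩ := hstep a b hne
        obtain ⟨p, hp⟩ := ih w b (by omega)
        exact ⟨SimpleGraph.Walk.cons hadj p, by simpa using hp⟩
  obtain ⟨p, hp⟩ := hup _ u v rfl
  refine ⟨⟨p⟩, le_antisymm ((SimpleGraph.dist_le p).trans hp) ?_⟩
  obtain ⟨q, hq⟩ := SimpleGraph.Reachable.exists_walk_length_eq_dist (⟨p⟩ : G.Reachable u v)
  rw [← hq]
  exact hlow u v q

end General

section Concrete

/-- The distance table of the graph, three bits per entry. -/
def D (u v : Fin 12) : ℕ :=
  (588002946491259632972781707042766356891981698664212055554803392316475547635738882534479700918928811510887544515142207439840551512 >>> (3 * (12 * u.val + v.val))) % 8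

/-- The balls of radius `r ≤ 4`, as bit masks. -/
def ballMask (v r : ℕ) : ℕ :=
  (5515652138982321899805430159564412879047296455808883275906885883866442844151238242937163450973237679004750142288442902416791138699134354191761000115448890739255889579007141952723513417904341616858883787570485421723649 >>> (12 * (5 * v + r))) % 4096

/-- The graph: `u` and `v` are adjacent when the table entry is `1`. -/
def Gr : SimpleGraph (Fin 12) where
  Adj u v := D u v = 1
  symm := ⟨by
    have : ∀ u v : Fin 12, D u v = 1 → D v u = 1 := by decide +kernel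
    exact this⟩
  loopless := ⟨by
    have : ∀ u : Fin 12, ¬ D u u = 1 := by decide +kernel
    exact this⟩

instance : DecidableRel Gr.Adj := fun u v => inferInstanceAs (Decidable (D u v = 1))

theorem reach_dist (u v : Fin 12) : Gr.Reachable u v ∧ Gr.dist u v = D u v := by
  apply dist_eq_of_rec
  · decide +kernel
  · have : ∀ u v : Fin 12, u ≠ v → ∃ w, D u w = 1 ∧ D u v = D w v + 1 := by decide +kernel
    exact this
  · have : ∀ u w v : Fin 12, D u w = 1 → D u v ≤ D w v + 1 := by decide +kernel
    exact this

theorem dist_eq (u v : Fin 12) : Gr.dist u v = D u v := (reach_dist u v).2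

theorem ecc_eq (v : Fin 12) : ecc Gr v = Finset.univ.sup (fun u => D v u) := by
  unfold ecc
  congr 1
  funext u
  exact dist_eq v u

theorem ecc_le_four (v : Fin 12) : ecc Gr v ≤ 4 := by
  rw [ecc_eq]
  revert v
  decide +kernel

theorem mem_nbhd {f : Fin 12 → ℕ} {u v : Fin 12} : u ∈ nbhd Gr f v ↔ D u v ≤ f v := by
  unfold nbhd
  rw [Set.mem_ofPred_eq, dist_eq]
  exact ⟨fun h => h.2, fun h => ⟨(reach_dist u v).1, h⟩⟩

theorem mem_bdry {f : Fin 12 → ℕ} {u v : Fin 12} : u ∈ bdry Gr f v ↔ D u v = f v := by
  unfold bdry
  rw [Set.mem_ofPred_eq, dist_eq]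
  exact ⟨fun h => h.2, fun h => ⟨(reach_dist u v).1, h⟩⟩

theorem ballMask_spec (v : Fin 12) (r : ℕ) (hr : r ≤ 4) (u : Fin 12) :
    (ballMask v.val r).testBit u.val = decide (D u v ≤ r) := by
  have : ∀ (v : Fin 12) (r : Fin 5) (u : Fin 12),
    (ballMask v.val r.val).testBit u.val = decide (D u v ≤ r.val) := by decide +kernel
  exact this v ⟨r, by omega⟩ u

/-- The broadcast of weight `5`. -/
def f5 : Fin 12 → ℕ := ![0, 2, 0, 2, 0, 0, 0, 1, 0, 0, 0, 0]

theorem f5_bnr : BnrIndependent Gr f5 := by
  refine ⟨?_, ?_, ?_⟩
  · intro v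
    rw [ecc_eq]
    revert v
    decide +kernel
  · intro u v hu hv huv x hx
    rw [Set.mem_inter_iff, mem_nbhd, mem_nbhd] at hx
    rw [Set.mem_inter_iff, mem_bdry, mem_bdry]
    revert u v x
    decide +kernel
  · intro v hv
    have key : ∀ v : Fin 12, 0 < f5 v → ∃ u, D u v ≤ f5 v ∧
        ∀ w, 0 < Function.update f5 v (f5 v - 1) w →
          ¬ D u w ≤ Function.update f5 v (f5 v - 1) w := by decide +kernel
    obtain ⟨u, hu, hw⟩ := key v hv
    refine ⟨u, mem_nbhd.2 hu, ?_⟩
    rintro ⟨w, hw0, huw⟩
    exact hw w hw0 (mem_nbhd.1 huw)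

theorem f5_weight : weight f5 = 5 := by decide +kernel

end Concrete

section Search

/-- Union of the balls of a list of (vertex, radius) pairs. -/
def unionMask : List (ℕ × ℕ) → ℕ
  | [] => 0
  | p :: L => ballMask p.1 p.2 ||| unionMask L

/-- Candidates for the private boundary of `v` at radius `r`. -/
def bdMask (v r : ℕ) : ℕ := if r ≤ 1 then ballMask v r else ballMask v r ^^^ ballMask v (r - 1)

/-- `irrAux pre L`: each member of `L` has a candidate vertex outside all other balls of
`pre` (a mask) and `L`. -/
def irrAux : ℕ → List (ℕ × ℕ) → Bool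
  | _, [] => true
  | pre, p :: L =>
      (let o := pre ||| unionMask L
       (bdMask p.1 p.2 ||| o) != o) && irrAux (pre ||| ballMask p.1 p.2) L

/-- Total radius. -/
def total : List (ℕ × ℕ) → ℕ
  | [] => 0
  | p :: L => p.2 + total L

/-- At a leaf: the weight is at most `4` or some vertex is not dominated. -/
def leafOk (L : List (ℕ × ℕ)) : Bool :=
  Nat.ble (total L) 4 || (List.range 12).any (fun u => !(unionMask L).testBit u)

/-- The search. `vs` lists the vertices still to be assigned. -/
def search : List ℕ → List (ℕ × ℕ) → Bool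
  | [], L => leafOk L
  | v :: vs, L =>
      search vs L &&
      (!irrAux 0 ((v, 1) :: L) || search vs ((v, 1) :: L)) &&
      (!irrAux 0 ((v, 2) :: L) || search vs ((v, 2) :: L)) &&
      (!irrAux 0 ((v, 3) :: L) || search vs ((v, 3) :: L)) &&
      (!irrAux 0 ((v, 4) :: L) || search vs ((v, 4) :: L))

theorem search_ok : search [11, 10, 9, 8, 7, 6, 5, 4, 3, 2, 1, 0] [] = true := by decide +kernel

theorem testBit_unionMask (L : List (ℕ × ℕ)) (u : ℕ) :
    (unionMask L).testBit u = true ↔ ∃ p ∈ L, (ballMask p.1 p.2).testBit u = true := by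
  induction L with
  | nil => simp [unionMask]
  | cons p L ih =>
    simp only [unionMask, Nat.testBit_or, Bool.or_eq_true, ih, List.mem_cons]
    constructor
    · rintro (h | ⟨q, hq, h⟩)
      · exact ⟨p, Or.inl rfl, h⟩
      · exact ⟨q, Or.inr hq, h⟩
    · rintro ⟨q, rfl | hq, h⟩
      · exact Or.inl h
      · exact Or.inr ⟨q, hq, h⟩

/-- Every member of `L` has a candidate vertex outside `pre` and all other balls. -/
def Good (pre : ℕ) (L : List (ℕ × ℕ)) : Prop :=
  ∀ p ∈ L, ∃ u, (bdMask p.1 p.2).testBit u = true ∧ pre.testBit u = false ∧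
    ∀ q ∈ L, q.1 ≠ p.1 → (ballMask q.1 q.2).testBit u = false

theorem irrAux_of_good (L : List (ℕ × ℕ)) : ∀ pre : ℕ, (L.map Prod.fst).Nodup → Good pre L →
    irrAux pre L = true := by
  induction L with
  | nil => intro pre _ _; rfl
  | cons p L ih =>
    intro pre hnd hg
    rw [List.map_cons, List.nodup_cons] at hnd
    simp only [irrAux, Bool.and_eq_true, bne_iff_ne, ne_eq]
    constructor
    · obtain ⟨u, hu, hpre, hq⟩ := hg p (by simp)
      intro heq
      have h1 := congrArg (fun m => Nat.testBit m u) heq
      simp only [Nat.testBit_or, hu, hpre, Bool.false_or, Bool.true_or] at h1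
      rw [eq_comm, testBit_unionMask] at h1
      obtain ⟨q, hqL, hqt⟩ := h1
      have hne : q.1 ≠ p.1 := by
        intro h
        exact hnd.1 (List.mem_map.2 ⟨q, hqL, h⟩)
      rw [hq q (by simp [hqL]) hne] at hqt
      exact absurd hqt (by simp)
    · apply ih _ hnd.2
      intro q hqL
      obtain ⟨u, hu, hpre, hr⟩ := hg q (by simp [hqL])
      refine ⟨u, hu, ?_, fun r hrL hne => hr r (by simp [hrL]) hne⟩
      rw [Nat.testBit_or, hpre, Bool.false_or]
      apply hr p (by simp)
      intro h
      exact hnd.1 (List.mem_map.2 ⟨q, hqL, h.symm⟩)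

/-- The properties of a function that the search uses. -/
structure Adm (F : ℕ → ℕ) : Prop where
  le_four : ∀ v, F v ≤ 4
  supp : ∀ v, 0 < F v → v < 12
  irr : ∀ v, 0 < F v → ∃ u, (bdMask v (F v)).testBit u = true ∧
    ∀ w, w ≠ v → 0 < F w → (ballMask w (F w)).testBit u = false
  dom : ∀ u, u < 12 → ∃ v, 0 < F v ∧ (ballMask v (F v)).testBit u = true

/-- The invariant of the search. -/
structure Inv (F : ℕ → ℕ) (vs : List ℕ) (L : List (ℕ × ℕ)) : Prop where
  val : ∀ p ∈ L, F p.1 = p.2 ∧ 0 < p.2
  nodup : (L.map Prod.fst).Nodup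
  nodup' : vs.Nodup
  disj : ∀ v ∈ vs, v ∉ L.map Prod.fst
  cover : ∀ v, 0 < F v → v ∈ vs ∨ v ∈ L.map Prod.fst

theorem total_eq {F : ℕ → ℕ} (L : List (ℕ × ℕ)) (h : ∀ p ∈ L, F p.1 = p.2) :
    total L = ((L.map Prod.fst).map F).sum := by
  induction L with
  | nil => rfl
  | cons p L ih =>
    simp only [total, List.map_cons, List.sum_cons]
    rw [ih (fun q hq => h q (by simp [hq])), h p (by simp)]

theorem irrAux_of_adm {F : ℕ → ℕ} (hF : Adm F) (L : List (ℕ × ℕ))
    (hval : ∀ p ∈ L, F p.1 = p.2 ∧ 0 < p.2) (hnd : (L.map Prod.fst).Nodup) :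
    irrAux 0 L = true := by
  apply irrAux_of_good L 0 hnd
  intro p hp
  obtain ⟨h1, h2⟩ := hval p hp
  obtain ⟨u, hu, hw⟩ := hF.irr p.1 (by omega)
  refine ⟨u, by rwa [h1] at hu, by simp, ?_⟩
  intro q hq hne
  obtain ⟨h3, h4⟩ := hval q hq
  have := hw q.1 hne (by omega)
  rwa [h3] at this

theorem search_sound {F : ℕ → ℕ} (hF : Adm F) (vs : List ℕ) : ∀ L : List (ℕ × ℕ),
    search vs L = true → Inv F vs L → ∑ v ∈ Finset.range 12, F v ≤ 4 := by
  induction vs with
  | nil =>
    intro L hs hI
    have hcov : ∀ v, 0 < F v → v ∈ L.map Prod.fst := by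
      intro v hv
      rcases hI.cover v hv with h | h
      · simp at h
      · exact h
    have htot : total L = ∑ v ∈ Finset.range 12, F v := by
      rw [total_eq L (fun p hp => (hI.val p hp).1), ← List.sum_toFinset F hI.nodup]
      apply Finset.sum_subset
      · intro v hv
        rw [List.mem_toFinset, List.mem_map] at hv
        obtain ⟨p, hp, rfl⟩ := hv
        obtain ⟨h1, h2⟩ := hI.val p hp
        exact Finset.mem_range.2 (hF.supp _ (by omega))
      · intro v _ hv
        by_contra hne
        exact hv (List.mem_toFinset.2 (hcov v (Nat.pos_of_ne_zero hne)))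
    simp only [search, leafOk, Bool.or_eq_true, List.any_eq_true, List.mem_range] at hs
    rcases hs with h | ⟨u, hu, hu2⟩
    · rw [← htot]
      exact Nat.le_of_ble_eq_true h
    · exfalso
      obtain ⟨v, hv, hvu⟩ := hF.dom u hu
      have hmem := hcov v hv
      rw [List.mem_map] at hmem
      obtain ⟨p, hp, rfl⟩ := hmem
      rw [(hI.val p hp).1] at hvu
      have : (unionMask L).testBit u = true := (testBit_unionMask L u).2 ⟨p, hp, hvu⟩
      rw [this] at hu2
      simp at hu2
  | cons v vs ih =>
    intro L hs hI
    have hnd := List.nodup_cons.1 hI.nodup'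
    have hvL : v ∉ L.map Prod.fst := hI.disj v (by simp)
    simp only [search, Bool.and_eq_true] at hs
    obtain ⟨⟨⟨⟨hs0, hs1⟩, hs2⟩, hs3⟩, hs4⟩ := hs
    have step : ∀ r, F v = r → 0 < r → Inv F vs ((v, r) :: L) := by
      intro r hr hpos
      refine ⟨?_, ?_, hnd.2, ?_, ?_⟩
      · intro p hp
        rcases List.mem_cons.1 hp with rfl | hp
        · exact ⟨hr, hpos⟩
        · exact hI.val p hp
      · rw [List.map_cons, List.nodup_cons]
        exact ⟨hvL, hI.nodup⟩
      · intro w hw
        rw [List.map_cons, List.mem_cons]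
        rintro (h | h)
        · simp only at h
          subst h
          exact hnd.1 hw
        · exact hI.disj w (by simp [hw]) h
      · intro w hw
        rcases hI.cover w hw with h | h
        · rcases List.mem_cons.1 h with h | h
          · right; rw [List.map_cons, List.mem_cons]; exact Or.inl h
          · exact Or.inl h
        · right; rw [List.map_cons, List.mem_cons]; exact Or.inr h
    have fin : ∀ r, F v = r → 0 < r →
        (!irrAux 0 ((v, r) :: L) || search vs ((v, r) :: L)) = true →
        ∑ v ∈ Finset.range 12, F v ≤ 4 := by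
      intro r hr hpos hb
      have hI' := step r hr hpos
      have hirr := irrAux_of_adm hF _ hI'.val hI'.nodup
      rw [hirr] at hb
      exact ih _ (by simpa using hb) hI'
    have h4 := hF.le_four v
    rcases Nat.eq_zero_or_pos (F v) with h0 | hpos
    · apply ih L hs0
      refine ⟨hI.val, hI.nodup, hnd.2, fun w hw => hI.disj w (by simp [hw]), ?_⟩
      intro w hw
      rcases hI.cover w hw with h | h
      · rcases List.mem_cons.1 h with h | h
        · subst h; omega
        · exact Or.inl h
      · exact Or.inr h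
    · obtain h | h | h | h : F v = 1 ∨ F v = 2 ∨ F v = 3 ∨ F v = 4 := by omega
      · exact fin 1 h (by norm_num) hs1
      · exact fin 2 h (by norm_num) hs2
      · exact fin 3 h (by norm_num) hs3
      · exact fin 4 h (by norm_num) hs4

end Search

section Final

/-- Extension of a function on `Fin 12` by zero. -/
def ext (f : Fin 12 → ℕ) (v : ℕ) : ℕ := if h : v < 12 then f ⟨v, h⟩ else 0

theorem ext_val (f : Fin 12 → ℕ) (v : Fin 12) : ext f v.val = f v := by
  simp [ext, v.isLt]

theorem adm_ext {f : Fin 12 → ℕ} (hf : MinimalDominating Gr f) : Adm (ext f) := by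
  have hirr := MinimalDominating.irredundant Gr hf
  have hle : ∀ v : Fin 12, f v ≤ 4 := fun v => (hf.1 v).trans (ecc_le_four v)
  have hsupp : ∀ v, 0 < ext f v → v < 12 := by
    intro v hv
    by_contra h
    simp [ext, h] at hv
  refine ⟨?_, hsupp, ?_, ?_⟩
  · intro v
    unfold ext
    split_ifs with h
    · exact hle _
    · omega
  · intro v hv
    obtain ⟨v, rfl⟩ : ∃ w : Fin 12, w.val = v := ⟨⟨v, hsupp v hv⟩, rfl⟩
    rw [ext_val] at hv ⊢
    obtain ⟨u, hu1, hu2⟩ := hirr v hv
    rw [mem_nbhd] at hu1
    refine ⟨u.val, ?_, ?_⟩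
    · unfold bdMask
      split_ifs with h1
      · rw [ballMask_spec v _ (hle v)]
        simpa using hu1
      · rw [Nat.testBit_xor, ballMask_spec v _ (hle v),
          ballMask_spec v _ ((Nat.sub_le _ _).trans (hle v))]
        have : ¬ D u v ≤ f v - 1 := by
          intro hcon
          apply hu2
          refine ⟨v, ?_, ?_⟩
          · rw [Function.update_self]; omega
          · rw [mem_nbhd, Function.update_self]; exact hcon
        simp [hu1, this]
    · intro w hw hw0
      obtain ⟨w, rfl⟩ : ∃ x : Fin 12, x.val = w := ⟨⟨w, hsupp w hw0⟩, rfl⟩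
      rw [ext_val] at hw0 ⊢
      have hwv : w ≠ v := fun h => hw (by rw [h])
      rw [ballMask_spec w _ (hle w)]
      have : ¬ D u w ≤ f w := by
        intro hcon
        apply hu2
        refine ⟨w, ?_, ?_⟩
        · rw [Function.update_of_ne hwv]; exact hw0
        · rw [mem_nbhd, Function.update_of_ne hwv]; exact hcon
      simpa using this
  · intro u hu
    obtain ⟨v, hv, huv⟩ := hf.2.1 ⟨u, hu⟩
    rw [mem_nbhd] at huv
    refine ⟨v.val, by rwa [ext_val], ?_⟩
    rw [ext_val]
    have := ballMask_spec v (f v) (hle v) ⟨u, hu⟩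
    simp only at this
    rw [this]
    simpa using huv

theorem minDom_weight_le {f : Fin 12 → ℕ} (hf : MinimalDominating Gr f) : weight f ≤ 4 := by
  have hF := adm_ext hf
  have h := search_sound hF [11, 10, 9, 8, 7, 6, 5, 4, 3, 2, 1, 0] [] search_ok
    ⟨by simp, by simp, by decide, by simp, by
      intro v hv
      left
      have := hF.supp v hv
      interval_cases v <;> simp⟩
  have hw : weight f = ∑ v ∈ Finset.range 12, ext f v := by
    unfold weight
    rw [Finset.sum_range]
    exact Finset.sum_congr rfl (fun v _ => (ext_val f v).symm)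
  rw [hw]
  exact h

/-- There is a connected graph on 12 vertices with minimum degree at least `2` whose upper
broadcast domination number is smaller than its bnr-independence number. -/
theorem result : ∃ (G : SimpleGraph (Fin 12)) (_ : DecidableRel G.Adj),
    G.Connected ∧ 2 ≤ G.minDegree ∧ upperBroadcastDomination G < bnrIndependenceNumber G := by
  refine ⟨Gr, inferInstance, ?_, ?_, ?_⟩
  · rw [SimpleGraph.connected_iff]
    exact ⟨fun u v => (reach_dist u v).1, ⟨0⟩⟩
  · apply SimpleGraph.le_minDegree_of_forall_le_degree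
    intro v
    revert v
    decide +kernel
  · have h1 := upperBroadcastDomination_le Gr (fun f hf => minDom_weight_le hf)
    have h2 := le_bnrIndependenceNumber Gr f5_bnr
    rw [f5_weight] at h2
    omega

end Final

end Pool.Agent.Results.MP_99edab_co.TwinCounterexample
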